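import Pool.Agent.P.MP_e0f0cb_an.H.Rep

set_option autoImplicit false

namespace Pool.Agent.Results.MP_e0f0cb_an.UniformBound

open Pool.Agent.P.MP_e0f0cb_an

universe u v

theorem result :
    ∀ (A : Type u) [NonUnitalNormedRing A] [NormedSpace ℂ A] [IsScalarTower ℂ A A]
      [SMulCommClass ℂ A A] [CompleteSpace A] (D : A →ₗ[ℂ] A),
      (∀ a b : A, D (a * b) = a * D b + D a * b) →
      ∃ C : ℝ, ∀ (E : Type v) [AddCommGroup E] [Module ℂ E] (π : A →ₙₐ[ℂ] Module.End ℂ E),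
        (∃ (a : A) (x : E), π a x ≠ 0) →
        (∀ F : Submodule ℂ E, (∀ (a : A) (x : E), x ∈ F → π a x ∈ F) → F = ⊥ ∨ F = ⊤) →
        ∀ a p : A, π p = 0 → ∃ q : A, π q = 0 ∧ ‖D a - q‖ ≤ C * ‖a - p‖ := by
  intro A _ _ _ _ _ D hD
  have hD' : ∀ a b : A, D (a * b) = D a * b + a * D b := fun a b => by rw [hD, add_comm]
  obtain ⟨C, hC⟩ := rad_bound' D hD'
  refine ⟨C, fun E _ _ π h0 hirr a p hp => ?_⟩
  obtain ⟨r, hr, h⟩ := hC (a - p)
  refine ⟨D p + (WithLp.ofLp r).snd, ?_, ?_⟩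
  · rw [map_add, rep_inv π D hD' h0 hirr p hp, rep_jac π h0 hirr r hr, add_zero]
  · rwa [map_sub, sub_sub] at h

end Pool.Agent.Results.MP_e0f0cb_an.UniformBound
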